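import Pool.Agent.N869.GK.D.Stm
import Pool.Agent.N402.SL.SP0

/-!
# Project GK (helper869), GK-GOOD: at the good primes all the unramified classes come from points
(helper592)
-/

set_option autoImplicit false

namespace Pool.Agent.N592.GK

open Finset
open Pool.Agent.N402.SL (sqQ int_ne)
open Pool.Agent.TH841.SH (LocC)
open Pool.Agent.N869.GK.D (S_LCG S_GOOD)

section Sums

variable {p : ℕ} [hp : Fact p.Prime]


theorem rc (h2 : p ≠ 2) : ringChar (ZMod p) ≠ 2 := by
  rw [ZMod.ringChar_zmod_n]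
  exact h2

theorem sum_one (h2 : p ≠ 2) (a : ZMod p) : ∑ x : ZMod p, quadraticChar (ZMod p) (x - a) = 0 := by
  rw [← quadraticChar_sum_zero (F := ZMod p) (rc h2)]
  exact Fintype.sum_equiv (Equiv.subRight a) _ _ fun x => rfl

theorem sum_two (h2 : p ≠ 2) {a b : ZMod p} (hab : a ≠ b) :
    ∑ x : ZMod p, quadraticChar (ZMod p) (x - a) * quadraticChar (ZMod p) (x - b) = -1 := by
  have h1 : ∑ x ∈ univ.erase a, quadraticChar (ZMod p) (x - a) * quadraticChar (ZMod p) (x - b) = ∑ y ∈ univ.erase (1 : ZMod p), quadraticChar (ZMod p) y := by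
    have hab' : a - b ≠ 0 := sub_ne_zero.2 hab
    refine Finset.sum_nbij' (fun x => (x - b) / (x - a)) (fun y => a + (a - b) / (y - 1)) ?_ ?_ ?_ ?_ ?_
    · intro x hx
      have hxa : x - a ≠ 0 := sub_ne_zero.2 (Finset.ne_of_mem_erase hx)
      refine Finset.mem_erase.2 ⟨?_, Finset.mem_univ _⟩
      rw [Ne, div_eq_one_iff_eq hxa]
      intro h
      exact hab (by linear_combination h)
    · intro y hy
      have hy1 : y - 1 ≠ 0 := sub_ne_zero.2 (Finset.ne_of_mem_erase hy)
      refine Finset.mem_erase.2 ⟨?_, Finset.mem_univ _⟩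
      intro h
      have h3 : (a - b) / (y - 1) = 0 := by linear_combination h
      exact (div_ne_zero hab' hy1) h3
    · intro x hx
      have hxa : x - a ≠ 0 := sub_ne_zero.2 (Finset.ne_of_mem_erase hx)
      have h3 : (x - b) / (x - a) - 1 = (a - b) / (x - a) := by
        field_simp
        ring
      rw [h3]
      field_simp
      ring
    · intro y hy
      have hy1 : y - 1 ≠ 0 := sub_ne_zero.2 (Finset.ne_of_mem_erase hy)
      have h3 : a + (a - b) / (y - 1) - a = (a - b) / (y - 1) := by ring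
      rw [h3]
      field_simp
      ring
    · intro x hx
      have hxa : x - a ≠ 0 := sub_ne_zero.2 (Finset.ne_of_mem_erase hx)
      rw [← map_mul]
      have h3 : (x - a) * (x - b) = (x - a) ^ 2 * ((x - b) / (x - a)) := by
        field_simp
      rw [h3, map_mul, quadraticChar_sq_one' hxa, one_mul]
  have h3 := Finset.add_sum_erase univ (fun x : ZMod p => quadraticChar (ZMod p) (x - a) * quadraticChar (ZMod p) (x - b)) (mem_univ a)
  have h4 := Finset.add_sum_erase univ (fun y : ZMod p => quadraticChar (ZMod p) y) (mem_univ 1)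
  rw [quadraticChar_sum_zero (F := ZMod p) (rc h2), map_one] at h4
  rw [← h3, h1, sub_self, MulChar.map_zero, zero_mul]
  linarith

/-- signs -/
theorem char_pm {a : ZMod p} (ha : a ≠ 0) : quadraticChar (ZMod p) a = 1 ∨ quadraticChar (ZMod p) a = -1 := quadraticChar_dichotomy ha

/-- a factor is zero if the sign is wrong -/
theorem fac_zero {e s : ℤ} (he : e = 1 ∨ e = -1) (hs : s = 1 ∨ s = -1) (h : s ≠ e) :
    1 + e * s = 0 := by
  rcases he with rfl | rfl <;> rcases hs with rfl | rfl <;> simp_all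

/-- a point with given signs or a point of order dividing two -/
theorem exists_pt (h2 : p ≠ 2) {a b c : ZMod p} (hab : a ≠ b) (hac : a ≠ c) (hbc : b ≠ c)
    {e f : ℤ} (he : e = 1 ∨ e = -1) (hf : f = 1 ∨ f = -1) :
    (∃ x : ZMod p, quadraticChar (ZMod p) (x - a) = e ∧ quadraticChar (ZMod p) (x - b) = f ∧ quadraticChar (ZMod p) (x - c) = e * f) ∨
    (e = 1 ∧ f = 1) ∨ (f = quadraticChar (ZMod p) (a - b) ∧ e * f = quadraticChar (ZMod p) (a - c)) ∨
    (e = quadraticChar (ZMod p) (b - a) ∧ e * f = quadraticChar (ZMod p) (b - c)) ∨ (e = quadraticChar (ZMod p) (c - a) ∧ f = quadraticChar (ZMod p) (c - b)) := by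
  by_contra hcon
  push Not at hcon
  obtain ⟨hx, h1, h2', h3, h4⟩ := hcon
  have hef : e * f = 1 ∨ e * f = -1 := by
    rcases he with rfl | rfl <;> rcases hf with rfl | rfl <;> simp
  -- all terms are zero
  have hzero : ∀ x : ZMod p,
      (1 + e * quadraticChar (ZMod p) (x - a)) * (1 + f * quadraticChar (ZMod p) (x - b)) * (1 + e * f * quadraticChar (ZMod p) (x - c)) = 0 := by
    intro x
    rcases eq_or_ne x a with rfl | hxa
    · rw [sub_self, MulChar.map_zero, mul_zero, add_zero, one_mul]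
      rcases eq_or_ne f (quadraticChar (ZMod p) (x - b)) with h5 | h5
      · rw [fac_zero hef (char_pm (sub_ne_zero.2 hac)) (fun h6 => h2' h5 h6.symm), mul_zero]
      · rw [fac_zero hf (char_pm (sub_ne_zero.2 hab)) h5.symm, zero_mul]
    rcases eq_or_ne x b with rfl | hxb
    · rw [sub_self, MulChar.map_zero, mul_zero, add_zero, mul_one]
      rcases eq_or_ne e (quadraticChar (ZMod p) (x - a)) with h5 | h5
      · rw [fac_zero hef (char_pm (sub_ne_zero.2 hbc)) (fun h6 => h3 h5 h6.symm), mul_zero]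
      · rw [fac_zero he (char_pm (sub_ne_zero.2 hxa)) h5.symm, zero_mul]
    rcases eq_or_ne x c with rfl | hxc
    · rw [sub_self, MulChar.map_zero, mul_zero, add_zero, mul_one]
      rcases eq_or_ne e (quadraticChar (ZMod p) (x - a)) with h5 | h5
      · rw [fac_zero hf (char_pm (sub_ne_zero.2 hxb)) (fun h6 => h4 h5 h6.symm), mul_zero]
      · rw [fac_zero he (char_pm (sub_ne_zero.2 hxa)) h5.symm, zero_mul]
    rcases eq_or_ne e (quadraticChar (ZMod p) (x - a)) with h5 | h5
    · rcases eq_or_ne f (quadraticChar (ZMod p) (x - b)) with h6 | h6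
      · rw [fac_zero hef (char_pm (sub_ne_zero.2 hxc)) (fun h7 => hx x h5.symm h6.symm h7),
          mul_zero]
      · rw [fac_zero hf (char_pm (sub_ne_zero.2 hxb)) h6.symm, mul_zero, zero_mul]
    · rw [fac_zero he (char_pm (sub_ne_zero.2 hxa)) h5.symm, zero_mul, zero_mul]
  have hsum := Finset.sum_eq_zero fun (x : ZMod p) (_ : x ∈ univ) => hzero x
  have hee : e * e = 1 := by rcases he with rfl | rfl <;> norm_num
  have hff : f * f = 1 := by rcases hf with rfl | rfl <;> norm_num
  have hexp : ∀ x : ZMod p,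
      (1 + e * quadraticChar (ZMod p) (x - a)) * (1 + f * quadraticChar (ZMod p) (x - b)) * (1 + e * f * quadraticChar (ZMod p) (x - c)) =
      1 + e * quadraticChar (ZMod p) (x - a) + f * quadraticChar (ZMod p) (x - b) + e * f * quadraticChar (ZMod p) (x - c) + e * f * (quadraticChar (ZMod p) (x - a) * quadraticChar (ZMod p) (x - b)) +
      f * (quadraticChar (ZMod p) (x - a) * quadraticChar (ZMod p) (x - c)) + e * (quadraticChar (ZMod p) (x - b) * quadraticChar (ZMod p) (x - c)) +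
      quadraticChar (ZMod p) (x - a) * quadraticChar (ZMod p) (x - b) * quadraticChar (ZMod p) (x - c) := by
    intro x
    linear_combination (f * quadraticChar (ZMod p) (x - a) * quadraticChar (ZMod p) (x - c) + f * f * quadraticChar (ZMod p) (x - a) * quadraticChar (ZMod p) (x - b) * quadraticChar (ZMod p) (x - c)) * hee
      + (e * quadraticChar (ZMod p) (x - b) * quadraticChar (ZMod p) (x - c) + quadraticChar (ZMod p) (x - a) * quadraticChar (ZMod p) (x - b) * quadraticChar (ZMod p) (x - c)) * hff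
  rw [Finset.sum_congr rfl fun x _ => hexp x] at hsum
  simp only [Finset.sum_add_distrib, ← Finset.mul_sum] at hsum
  rw [sum_one h2, sum_one h2, sum_one h2, sum_two h2 hab, sum_two h2 hac, sum_two h2 hbc] at hsum
  have hcard : ∑ _x : ZMod p, (1 : ℤ) = p := by
    rw [Finset.sum_const, Finset.card_univ, ZMod.card, nsmul_eq_mul, mul_one]
  rw [hcard] at hsum
  have hS : 0 ≤ (p : ℤ) + ∑ x : ZMod p, quadraticChar (ZMod p) (x - a) * quadraticChar (ZMod p) (x - b) * quadraticChar (ZMod p) (x - c) := by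
    rw [← hcard, ← Finset.sum_add_distrib]
    refine Finset.sum_nonneg fun x _ => ?_
    rw [← map_mul, ← map_mul]
    rcases eq_or_ne ((x - a) * (x - b) * (x - c)) 0 with h5 | h5
    · rw [h5, MulChar.map_zero]
      norm_num
    · rcases char_pm h5 with h6 | h6 <;> rw [h6] <;> norm_num
  have hef1 : 1 + e + f + e * f = 0 := by
    rcases he with rfl | rfl <;> rcases hf with rfl | rfl <;> first | (exact absurd rfl (h1 rfl)) | norm_num
  linarith

end Sums

section Main

variable {p : ℕ} [hp : Fact p.Prime]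


theorem pm_sq {s : ℤ} (h : s = 1 ∨ s = -1) : s * s = 1 := by
  rcases h with rfl | rfl <;> norm_num

/-- a point of `ZMod p` which is not a root lifts -/
theorem lift_pt (h2 : p ≠ 2) {a b c m n : ℤ} (hm : ¬ (p : ℤ) ∣ m) (hn : ¬ (p : ℤ) ∣ n)
    {x : ZMod p} (h1 : quadraticChar (ZMod p) (x - a) = quadraticChar (ZMod p) (m : ZMod p)) (h3 : quadraticChar (ZMod p) (x - b) = quadraticChar (ZMod p) (n : ZMod p))
    (h4 : quadraticChar (ZMod p) (x - c) = quadraticChar (ZMod p) (m : ZMod p) * quadraticChar (ZMod p) (n : ZMod p)) : LocC ℚ_[p] a b c m n := by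
  have hmz := char_pm (int_ne hm)
  have hnz := char_pm (int_ne hn)
  obtain ⟨X, hX⟩ : ∃ X : ℤ, (X : ZMod p) = x := ⟨(x.val : ℤ), by simp⟩
  have e1 : quadraticChar (ZMod p) ((X - a : ℤ) : ZMod p) = quadraticChar (ZMod p) (m : ZMod p) := by
    push_cast
    rw [hX, h1]
  have e2 : quadraticChar (ZMod p) ((X - b : ℤ) : ZMod p) = quadraticChar (ZMod p) (n : ZMod p) := by
    push_cast
    rw [hX, h3]
  have e3 : quadraticChar (ZMod p) ((X - c : ℤ) : ZMod p) = quadraticChar (ZMod p) (m : ZMod p) * quadraticChar (ZMod p) (n : ZMod p) := by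
    push_cast
    rw [hX, h4]
  obtain ⟨s, hs⟩ := sqQ h2 ((X - a) * m) (by
    rw [Int.cast_mul, map_mul, e1]
    exact pm_sq hmz)
  obtain ⟨t, ht⟩ := sqQ h2 ((X - b) * n) (by
    rw [Int.cast_mul, map_mul, e2]
    exact pm_sq hnz)
  obtain ⟨y, hy⟩ := sqQ h2 ((X - a) * (X - b) * (X - c)) (by
    rw [Int.cast_mul, Int.cast_mul, map_mul, map_mul, e1, e2, e3]
    linear_combination (quadraticChar (ZMod p) (n : ZMod p)) ^ 2 * (pm_sq hmz) + pm_sq hnz)
  refine ⟨(X : ℚ_[p]), y, ?_, ?_, ⟨s, ?_⟩, ⟨t, ?_⟩⟩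
  · rintro rfl
    rw [mul_zero] at hy
    have h5 : (X - a) * (X - b) * (X - c) = 0 := by exact_mod_cast hy
    have h6 : quadraticChar (ZMod p) (((X - a) * (X - b) * (X - c) : ℤ) : ZMod p) = 0 := by
      rw [h5, Int.cast_zero, MulChar.map_zero]
    rw [Int.cast_mul, Int.cast_mul, map_mul, map_mul, e1, e2, e3] at h6
    rcases hmz with h7 | h7 <;> rcases hnz with h8 | h8 <;> rw [h7, h8] at h6 <;> norm_num at h6
  · push_cast at hy
    rw [hy]
    ring
  · push_cast at hs
    exact hs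
  · push_cast at ht
    exact ht

/-- **GK-GOOD.** -/
theorem t_GOOD : S_GOOD := by
  intro hLCG e1 e2 e3 p hp h2 hbad m n hm hn
  have hd : ∀ z : ℤ, z ∣ (e1 - e2) * (e1 - e3) * (e2 - e3) → ¬ (p : ℤ) ∣ z :=
    fun z hz h => hbad (h.trans hz)
  have hz12 := int_ne (hd (e1 - e2) ⟨(e1 - e3) * (e2 - e3), by ring⟩)
  have hz13 := int_ne (hd (e1 - e3) ⟨(e1 - e2) * (e2 - e3), by ring⟩)
  have hz23 := int_ne (hd (e2 - e3) ⟨(e1 - e2) * (e1 - e3), by ring⟩)
  have h12 : e1 ≠ e2 := by
    rintro rfl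
    exact hz12 (by simp)
  have h13 : e1 ≠ e3 := by
    rintro rfl
    exact hz13 (by simp)
  have h23 : e2 ≠ e3 := by
    rintro rfl
    exact hz23 (by simp)
  have hG := (hLCG e1 e2 e3 h12 h13 h23).2 p
  have hm0 : m ≠ 0 := by
    rintro rfl
    exact hm (dvd_zero _)
  have hn0 : n ≠ 0 := by
    rintro rfl
    exact hn (dvd_zero _)
  push_cast at hz12 hz13 hz23
  have hz12' := sub_ne_zero.1 hz12
  have hz13' := sub_ne_zero.1 hz13
  have hz23' := sub_ne_zero.1 hz23
  have hmz := char_pm (int_ne hm)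
  have hnz := char_pm (int_ne hn)
  have hsq : ∀ u : ℤ, quadraticChar (ZMod p) (u : ZMod p) = 1 → IsSquare (u : ℚ_[p]) :=
    fun u hu => sqQ h2 u hu
  rcases exists_pt h2 hz12' hz13' hz23' hmz hnz with ⟨x, hx1, hx2, hx3⟩ | ⟨h5, h6⟩ | ⟨h5, h6⟩ |
    ⟨h5, h6⟩ | ⟨h5, h6⟩
  · exact lift_pt h2 hm hn hx1 hx2 hx3
  · -- the class one
    refine hG.cls 1 1 m n one_ne_zero one_ne_zero hm0 hn0 ?_ ?_ hG.one
    · apply hsq
      rw [one_mul, h5]
    · apply hsq
      rw [one_mul, h6]
  · -- the first point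
    refine hG.cls _ _ m n (mul_ne_zero (sub_ne_zero.2 h12) (sub_ne_zero.2 h13))
      (sub_ne_zero.2 h12) hm0 hn0 ?_ ?_ hG.t1
    · apply hsq
      push_cast
      rw [map_mul, map_mul, ← h5, ← h6]
      linear_combination (quadraticChar (ZMod p) (n : ZMod p)) ^ 2 * (pm_sq hmz) + pm_sq hnz
    · apply hsq
      push_cast
      rw [map_mul, ← h5]
      exact pm_sq hnz
  · -- the second point
    refine hG.cls _ _ m n (sub_ne_zero.2 h12.symm) (mul_ne_zero (sub_ne_zero.2 h12.symm)
      (sub_ne_zero.2 h23)) hm0 hn0 ?_ ?_ hG.t2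
    · apply hsq
      push_cast
      rw [map_mul, ← h5]
      exact pm_sq hmz
    · apply hsq
      push_cast
      rw [map_mul, map_mul, ← h5, ← h6]
      linear_combination (quadraticChar (ZMod p) (n : ZMod p)) ^ 2 * (pm_sq hmz) + pm_sq hnz
  · -- the third point
    have h31 : e3 - e1 ≠ 0 := sub_ne_zero.2 h13.symm
    refine hG.cls _ _ m n (mul_ne_zero (mul_ne_zero (sub_ne_zero.2 h12) (sub_ne_zero.2 h13))
      (sub_ne_zero.2 h12.symm)) (mul_ne_zero (sub_ne_zero.2 h12) (mul_ne_zero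
      (sub_ne_zero.2 h12.symm) (sub_ne_zero.2 h23))) hm0 hn0 ?_ ?_
      (hG.mul _ _ _ _ (mul_ne_zero (sub_ne_zero.2 h12) (sub_ne_zero.2 h13)) (sub_ne_zero.2 h12)
        (sub_ne_zero.2 h12.symm) (mul_ne_zero (sub_ne_zero.2 h12.symm) (sub_ne_zero.2 h23))
        hG.t1 hG.t2)
    · apply hsq
      have h7 : (((e1 - e2) * (e1 - e3) * (e2 - e1) * m : ℤ) : ZMod p) =
          ((e1 : ZMod p) - e2) ^ 2 * (((e3 : ZMod p) - e1) * m) := by
        push_cast
        ring
      rw [h7, map_mul, map_mul, quadraticChar_sq_one' hz12, one_mul, ← h5]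
      exact pm_sq hmz
    · apply hsq
      have h7 : (((e1 - e2) * ((e2 - e1) * (e2 - e3)) * n : ℤ) : ZMod p) =
          ((e1 : ZMod p) - e2) ^ 2 * (((e3 : ZMod p) - e2) * n) := by
        push_cast
        ring
      rw [h7, map_mul, map_mul, quadraticChar_sq_one' hz12, one_mul, ← h6]
      exact pm_sq hnz

end Main

end Pool.Agent.N592.GK
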